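import Pool.Agent.L0h66.EV.Adv

set_option autoImplicit false

/-! # Exchange families and evasiveness: the general theorem and matroids -/

namespace Pool.Agent.L0h36.XF

open SimpleGraph

variable {V : Type}

/-- The property `P` of the spanning subgraphs of the host graph `G₀` is evasive: every adaptive
strategy `σ` (a rule for choosing the next edge, depending only on the answers to the queries made
so far) needs all `|E(G₀)|` queries: there are two subgraphs of `G₀` that agree on the first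
`|E(G₀)| - 1` queried edges, one with and one without `P`. -/
def EvasiveOn [DecidableEq V] (G₀ : SimpleGraph V) (P : SimpleGraph V → Prop) : Prop :=
  ∀ σ : Finset (Sym2 V) → SimpleGraph V → Sym2 V,
    (∀ (Q : Finset (Sym2 V)) (G H : SimpleGraph V),
        (∀ e ∈ Q, (e ∈ G.edgeSet ↔ e ∈ H.edgeSet)) → σ Q G = σ Q H) →
    ∃ G H : SimpleGraph V, G ≤ G₀ ∧ H ≤ G₀ ∧
      (∀ e ∈ (fun Q : Finset (Sym2 V) => insert (σ Q G) Q)^[G₀.edgeSet.ncard - 1]
            (∅ : Finset (Sym2 V)),
          (e ∈ G.edgeSet ↔ e ∈ H.edgeSet)) ∧ P G ∧ ¬ P H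

/-- `𝓑` is an exchange family of subgraphs of `G₀`: it is not empty, its members have at least one
edge, and for every member `B` and every edge `e` of `G₀` outside of `B` the graph `B + e` contains a
member which does not contain `B`. -/
structure Exchange (G₀ : SimpleGraph V) (𝓑 : Set (SimpleGraph V)) : Prop where
  nonempty : 𝓑.Nonempty
  le : ∀ B ∈ 𝓑, B ≤ G₀
  ne_bot : ∀ B ∈ 𝓑, B ≠ ⊥
  exchange : ∀ B ∈ 𝓑, ∀ e ∈ G₀.edgeSet, e ∉ B.edgeSet →
    ∃ B' ∈ 𝓑, B'.edgeSet ⊆ insert e B.edgeSet ∧ ¬ B ≤ B'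

/-- the graph of a set of edges -/
def gr (A : Finset (Sym2 V)) : SimpleGraph V := fromEdgeSet (A : Set (Sym2 V))

theorem mem_gr {A : Finset (Sym2 V)} {e : Sym2 V} : e ∈ (gr A).edgeSet ↔ e ∈ A ∧ ¬ e.IsDiag := by
  unfold gr
  rw [edgeSet_fromEdgeSet]
  rfl

/-- the invariant -/
structure Inv [DecidableEq V] (𝓑 : Set (SimpleGraph V)) (E0 U Y : Finset (Sym2 V)) : Prop where
  sU : U ⊆ E0
  sY : Y ⊆ E0
  dj : ∀ e ∈ U, e ∉ Y
  ex : ∃ B ∈ 𝓑, B.edgeSet ⊆ ((U ∪ Y : Finset (Sym2 V)) : Set (Sym2 V))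
  cr : ∀ B ∈ 𝓑, B.edgeSet ⊆ ((U ∪ Y : Finset (Sym2 V)) : Set (Sym2 V)) → ∀ y ∈ Y, y ∈ B.edgeSet

/-- **The general theorem.** -/
theorem main [Finite V] [DecidableEq V] (G₀ : SimpleGraph V) (𝓑 : Set (SimpleGraph V))
    (h : Exchange G₀ 𝓑) (P : SimpleGraph V → Prop)
    (hP : ∀ B ∈ 𝓑, P B ∧ ∀ e ∈ B.edgeSet, ¬ P (B.deleteEdges {e})) : EvasiveOn G₀ P := by
  classical
  intro σ hσ
  set E0 : Finset (Sym2 V) := (Set.toFinite G₀.edgeSet).toFinset with hE0
  have hmem : ∀ e, e ∈ E0 ↔ e ∈ G₀.edgeSet := fun e => Set.Finite.mem_toFinset _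
  have hcard : E0.card = G₀.edgeSet.ncard := (Set.ncard_eq_toFinset_card _ _).symm
  obtain ⟨B0, hB0⟩ := h.nonempty
  have hE0ne : E0.Nonempty := by
    by_contra hemp
    rw [Finset.not_nonempty_iff_eq_empty] at hemp
    apply h.ne_bot B0 hB0
    rw [← edgeSet_eq_empty, Set.eq_empty_iff_forall_notMem]
    intro e he
    have := (hmem e).2 (edgeSet_subset_edgeSet.2 (h.le B0 hB0) he)
    rw [hemp] at this
    exact Finset.notMem_empty e this
  have hinit : Inv 𝓑 E0 E0 ∅ := by
    refine ⟨Finset.Subset.refl _, Finset.empty_subset _, fun e _ => Finset.notMem_empty e,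
      ⟨B0, hB0, ?_⟩, fun B _ _ y hy => absurd hy (Finset.notMem_empty y)⟩
    intro e he
    rw [Finset.union_empty]
    exact (hmem e).2 (edgeSet_subset_edgeSet.2 (h.le B0 hB0) he)
  have hstep : ∀ U Y e, Inv 𝓑 E0 U Y → e ∈ U → (∃ f ∈ U, f ≠ e) →
      Inv 𝓑 E0 (U.erase e) Y ∨ Inv 𝓑 E0 (U.erase e) (insert e Y) := by
    intro U Y e hI he _
    have hsub : ((U.erase e ∪ Y : Finset (Sym2 V)) : Set (Sym2 V)) ⊆ ((U ∪ Y : Finset (Sym2 V)) : Set (Sym2 V)) := by
      intro x hx
      simp only [Finset.coe_union, Set.mem_union, Finset.mem_coe, Finset.mem_erase] at hx ⊢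
      tauto
    by_cases hc : ∃ B ∈ 𝓑, B.edgeSet ⊆ ((U.erase e ∪ Y : Finset (Sym2 V)) : Set (Sym2 V))
    · left
      exact ⟨(Finset.erase_subset _ _).trans hI.sU, hI.sY, fun x hx => hI.dj x (Finset.mem_of_mem_erase hx),
        hc, fun B hB hBs => hI.cr B hB (hBs.trans hsub)⟩
    · right
      have hset : ((U.erase e ∪ insert e Y : Finset (Sym2 V)) : Set (Sym2 V)) =
          ((U ∪ Y : Finset (Sym2 V)) : Set (Sym2 V)) := by
        ext x
        simp only [Finset.coe_union, Set.mem_union, Finset.mem_coe, Finset.mem_erase, Finset.mem_insert]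
        by_cases hx : x = e
        · subst hx; tauto
        · tauto
      refine ⟨(Finset.erase_subset _ _).trans hI.sU, Finset.insert_subset (hI.sU he) hI.sY, ?_, ?_, ?_⟩
      · intro x hx
        rw [Finset.mem_erase] at hx
        rw [Finset.mem_insert, not_or]
        exact ⟨hx.1, hI.dj x hx.2⟩
      · rw [hset]; exact hI.ex
      · rw [hset]
        intro B hB hBs y hy
        rw [Finset.mem_insert] at hy
        rcases hy with rfl | hy
        · by_contra hn
          apply hc
          refine ⟨B, hB, ?_⟩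
          intro x hx
          have h1 := hBs hx
          simp only [Finset.coe_union, Set.mem_union, Finset.mem_coe, Finset.mem_erase] at h1 ⊢
          rcases h1 with h1 | h1
          · left
            refine ⟨?_, h1⟩
            rintro rfl
            exact hn hx
          · exact Or.inr h1
        · exact hI.cr B hB hBs y hy
  have hfin : ∀ e Y, Inv 𝓑 E0 {e} Y → P (gr (insert e Y)) ∧ ¬ P (gr Y) := by
    intro e Y hI
    obtain ⟨B, hB, hBs⟩ := hI.ex
    have he0 : e ∈ G₀.edgeSet := (hmem e).1 (hI.sU (Finset.mem_singleton_self e))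
    have heY : e ∉ Y := hI.dj e (Finset.mem_singleton_self e)
    have hYB := hI.cr B hB hBs
    have hBs' : ∀ x ∈ B.edgeSet, x = e ∨ x ∈ Y := by
      intro x hx
      have := hBs hx
      simpa using this
    have heB : e ∈ B.edgeSet := by
      by_contra hn
      obtain ⟨B', hB', h1, h2⟩ := h.exchange B hB e he0 hn
      apply h2
      rw [← edgeSet_subset_edgeSet]
      intro x hx
      have hxY : x ∈ Y := by
        rcases hBs' x hx with rfl | h3
        · exact absurd hx hn
        · exact h3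
      apply hI.cr B' hB' _ x hxY
      intro z hz
      have h3 := h1 hz
      rw [Set.mem_insert_iff] at h3
      rcases h3 with rfl | h3
      · simp
      · exact hBs h3
    have e1 : gr (insert e Y) = B := by
      rw [← edgeSet_inj]
      ext x
      rw [mem_gr, Finset.mem_insert]
      constructor
      · rintro ⟨rfl | h3, _⟩
        · exact heB
        · exact hYB x h3
      · intro hx
        exact ⟨hBs' x hx, B.not_isDiag_of_mem_edgeSet hx⟩
    have e2 : gr Y = B.deleteEdges {e} := by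
      rw [← edgeSet_inj]
      ext x
      rw [mem_gr, edgeSet_deleteEdges, Set.mem_sdiff, Set.mem_singleton_iff]
      constructor
      · rintro ⟨h3, _⟩
        refine ⟨hYB x h3, ?_⟩
        rintro rfl
        exact heY h3
      · rintro ⟨h3, h4⟩
        refine ⟨?_, B.not_isDiag_of_mem_edgeSet h3⟩
        rcases hBs' x h3 with h5 | h5
        · exact absurd h5 h4
        · exact h5
    rw [e1, e2]
    exact ⟨(hP B hB).1, (hP B hB).2 e heB⟩
  obtain ⟨A, C, hA, hC, hag, hPA, hPC⟩ := Pool.Agent.L0h66.EV.adversary (Inv 𝓑 E0) (fun A => P (gr A))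
    hstep hfin E0 hinit hE0ne (fun Q A => σ Q (gr A))
    (fun Q A B h => hσ Q _ _ (fun e he => by rw [mem_gr, mem_gr, h e he]))
  have hle : ∀ A : Finset (Sym2 V), A ⊆ E0 → gr A ≤ G₀ := by
    intro A hA
    rw [← edgeSet_subset_edgeSet]
    intro f hf
    rw [mem_gr] at hf
    exact (hmem f).1 (hA hf.1)
  refine ⟨gr A, gr C, hle A hA, hle C hC, ?_, hPA, hPC⟩
  intro e he
  rw [← hcard] at he
  rw [mem_gr, mem_gr, hag e he]

/-! ### Matroids -/

/-- The graphs with exactly `k` edges whose edge set is independent in the matroid `M`. -/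
def indepFamily (M : Matroid (Sym2 V)) (k : ℕ) : Set (SimpleGraph V) :=
  {B | M.Indep B.edgeSet ∧ B.edgeSet.ncard = k}

theorem matroid_exchange [Finite V] (G₀ : SimpleGraph V) (M : Matroid (Sym2 V)) (hE : M.E = G₀.edgeSet)
    (hl : ∀ e ∈ G₀.edgeSet, M.Indep {e}) (k : ℕ) (hk : 1 ≤ k)
    (hr : ∃ I, M.Indep I ∧ I.ncard = k) : Exchange G₀ (indepFamily M k) := by
  classical
  have hgr : ∀ S : Set (Sym2 V), S ⊆ G₀.edgeSet → (fromEdgeSet S).edgeSet = S := by
    intro S hS
    rw [edgeSet_fromEdgeSet]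
    ext x
    rw [Set.mem_sdiff]
    exact ⟨fun h => h.1, fun h => ⟨h, G₀.not_isDiag_of_mem_edgeSet (hS h)⟩⟩
  refine ⟨?_, ?_, ?_, ?_⟩
  · obtain ⟨I, hI, hIk⟩ := hr
    have hIs : I ⊆ G₀.edgeSet := hE ▸ hI.subset_ground
    refine ⟨fromEdgeSet I, ?_, ?_⟩
    · rw [hgr I hIs]; exact hI
    · rw [hgr I hIs]; exact hIk
  · rintro B ⟨hB, -⟩
    rw [← edgeSet_subset_edgeSet, ← hE]
    exact hB.subset_ground
  · rintro B ⟨-, hB⟩ rfl
    rw [edgeSet_bot, Set.ncard_empty] at hB
    omega
  · rintro B ⟨hB, hBk⟩ e he heB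
    have hBs : B.edgeSet ⊆ G₀.edgeSet := hE ▸ hB.subset_ground
    have hX : insert e B.edgeSet ⊆ M.E := by
      rw [hE]
      exact Set.insert_subset he hBs
    obtain ⟨J, hJ, heJ⟩ := (hl e he).subset_isBasis_of_subset (Set.singleton_subset_iff.2 (Set.mem_insert e _)) hX
    rw [Set.singleton_subset_iff] at heJ
    have hJs : J ⊆ insert e B.edgeSet := hJ.subset
    -- a member inside `insert e B` which misses an element of `B`
    by_cases hc : B.edgeSet ⊆ J
    · -- `insert e B` is independent; remove any edge of `B`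
      have hJe : J = insert e B.edgeSet := Set.Subset.antisymm hJs (Set.insert_subset heJ hc)
      have hne : B.edgeSet.Nonempty := by
        rw [← Set.ncard_pos (Set.toFinite _)]
        omega
      obtain ⟨b, hb⟩ := hne
      have hbe : b ≠ e := fun h => heB (h ▸ hb)
      have hsub : J \ {b} ⊆ G₀.edgeSet := fun x hx => hE ▸ hJ.indep.subset_ground hx.1
      refine ⟨fromEdgeSet (J \ {b}), ⟨?_, ?_⟩, ?_, ?_⟩
      · rw [hgr _ hsub]
        exact hJ.indep.subset Set.sdiff_subset
      · rw [hgr _ hsub, Set.ncard_sdiff_singleton_of_mem (hc hb), hJe, Set.ncard_insert_of_notMem heB (Set.toFinite _)]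
        omega
      · rw [hgr _ hsub]
        exact Set.sdiff_subset.trans hJs
      · intro hle
        rw [← edgeSet_subset_edgeSet, hgr _ hsub] at hle
        exact (hle hb).2 rfl
    · have hsub : J ⊆ G₀.edgeSet := hE ▸ hJ.indep.subset_ground
      refine ⟨fromEdgeSet J, ⟨?_, ?_⟩, ?_, ?_⟩
      · rw [hgr _ hsub]; exact hJ.indep
      · rw [hgr _ hsub]
        have h1 : J.ncard < (insert e B.edgeSet).ncard := by
          apply Set.ncard_lt_ncard _ (Set.toFinite _)
          refine ⟨hJs, fun h2 => hc fun x hx => h2 (Set.mem_insert_of_mem e hx)⟩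
        rw [Set.ncard_insert_of_notMem heB (Set.toFinite _)] at h1
        have h2 : B.edgeSet.encard ≤ J.encard := by
          have h3 := hB.encard_le_eRk_of_subset (Set.subset_insert e B.edgeSet)
          rw [hJ.encard_eq_eRk]
          exact h3
        have h3 : B.edgeSet.ncard ≤ J.ncard := by
          rw [← Set.Finite.cast_ncard_eq (Set.toFinite B.edgeSet), ← Set.Finite.cast_ncard_eq (Set.toFinite J)] at h2
          exact_mod_cast h2
        omega
      · rw [hgr _ hsub]; exact hJs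
      · intro hle
        rw [← edgeSet_subset_edgeSet, hgr _ hsub] at hle
        exact hc hle

end Pool.Agent.L0h36.XF
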