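import Pool.Agent.L0h36.XF.Rigid

set_option autoImplicit false

/-! # Edge-disjoint unions with members of an exchange family -/

namespace Pool.Agent.L0h36.XF

open SimpleGraph

variable {V : Type}

/-- The edge-disjoint unions of the members of an exchange family with arbitrary graphs are an exchange
family. -/
theorem packing {G₀ : SimpleGraph V} {𝓑 𝓗 : Set (SimpleGraph V)} (h : Exchange G₀ 𝓑)
    (hH : ∀ H ∈ 𝓗, H ≤ G₀) (hne : ∃ B ∈ 𝓑, ∃ H ∈ 𝓗, Disjoint B.edgeSet H.edgeSet) :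
    Exchange G₀ {C | ∃ B ∈ 𝓑, ∃ H ∈ 𝓗, Disjoint B.edgeSet H.edgeSet ∧ C = B ⊔ H} := by
  refine ⟨?_, ?_, ?_, ?_⟩
  · obtain ⟨B, hB, H, hH', hd⟩ := hne
    exact ⟨B ⊔ H, B, hB, H, hH', hd, rfl⟩
  · rintro C ⟨B, hB, H, hH', hd, rfl⟩
    exact sup_le (h.le B hB) (hH H hH')
  · rintro C ⟨B, hB, H, hH', hd, rfl⟩ h0
    exact h.ne_bot B hB (le_bot_iff.1 (h0 ▸ le_sup_left))
  · rintro C ⟨B, hB, H, hH', hd, rfl⟩ e he heC
    rw [edgeSet_sup] at heC
    obtain ⟨B', hB', hsub, hn⟩ := h.exchange B hB e he (fun h1 => heC (Or.inl h1))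
    have hd' : Disjoint B'.edgeSet H.edgeSet := by
      rw [Set.disjoint_left]
      intro x hx hxH
      rcases hsub hx with rfl | hxB
      · exact heC (Or.inr hxH)
      · exact Set.disjoint_left.1 hd hxB hxH
    refine ⟨B' ⊔ H, ⟨B', hB', H, hH', hd', rfl⟩, ?_, ?_⟩
    · rw [edgeSet_sup, edgeSet_sup]
      rintro x (hx | hx)
      · rcases hsub hx with rfl | hxB
        · exact Or.inl rfl
        · exact Or.inr (Or.inl hxB)
      · exact Or.inr (Or.inr hx)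
    · intro hle
      apply hn
      rw [← edgeSet_subset_edgeSet] at hle ⊢
      intro x hx
      have h2 : x ∈ (B' ⊔ H).edgeSet := hle (by rw [edgeSet_sup]; exact Or.inl hx)
      rw [edgeSet_sup] at h2
      rcases h2 with h1 | h1
      · exact h1
      · exact absurd h1 (Set.disjoint_left.1 hd hx)

/-- the same for families of graphs with constant numbers of edges -/
theorem pack [Finite V] [DecidableEq V] (G₀ : SimpleGraph V) (𝓑 𝓗 : Set (SimpleGraph V)) (k m : ℕ)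
    (h : Exchange G₀ 𝓑) (hk : ∀ B ∈ 𝓑, B.edgeSet.ncard = k) (hm : ∀ H ∈ 𝓗, H.edgeSet.ncard = m)
    (hne : ∃ B ∈ 𝓑, ∃ H ∈ 𝓗, H ≤ G₀ ∧ Disjoint B.edgeSet H.edgeSet) (P : SimpleGraph V → Prop)
    (h1 : ∀ B ∈ 𝓑, ∀ H ∈ 𝓗, H ≤ G₀ → Disjoint B.edgeSet H.edgeSet → P (B ⊔ H))
    (h2 : ∀ G ≤ G₀, P G → k + m ≤ G.edgeSet.ncard) : EvasiveOn G₀ P := by
  obtain ⟨B0, hB0, H0, hH0, hle0, hd0⟩ := hne
  have hex := packing (𝓗 := {H | H ∈ 𝓗 ∧ H ≤ G₀}) h (fun H hH => hH.2) ⟨B0, hB0, H0, ⟨hH0, hle0⟩, hd0⟩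
  refine main G₀ _ hex P ?_
  rintro C ⟨B, hB, H, ⟨hH, hHG⟩, hd, rfl⟩
  refine ⟨h1 B hB H hH hHG hd, fun e he hP => ?_⟩
  have h3 := h2 _ ((deleteEdges_le _).trans (sup_le (h.le B hB) hHG)) hP
  have h4 : (B ⊔ H).edgeSet.ncard = k + m := by
    rw [edgeSet_sup, Set.ncard_union_eq hd, hk B hB, hm H hH]
  rw [edgeSet_deleteEdges, Set.ncard_sdiff_singleton_of_mem he, h4] at h3
  have h5 : 0 < (B ⊔ H).edgeSet.ncard := (Set.ncard_pos (Set.toFinite _)).2 ⟨e, he⟩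
  omega

theorem ncard_sdiff_add [Finite V] {G H : SimpleGraph V} (h : H ≤ G) :
    (G \ H).edgeSet.ncard + H.edgeSet.ncard = G.edgeSet.ncard := by
  rw [edgeSet_sdiff]
  exact Set.ncard_sdiff_add_ncard_of_subset (edgeSet_subset_edgeSet.2 h)

theorem sup_sdiff_ge {B H : SimpleGraph V} (hd : Disjoint B.edgeSet H.edgeSet) : B ≤ (B ⊔ H) \ H := by
  rw [← edgeSet_subset_edgeSet, edgeSet_sdiff, edgeSet_sup]
  intro x hx
  exact ⟨Or.inl hx, Set.disjoint_left.1 hd hx⟩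

/-- general form of the corollaries: `R` is a monotone property which the members of the exchange family
have. -/
theorem pack_prop [Finite V] [DecidableEq V] (G₀ : SimpleGraph V) (𝓑 𝓗 : Set (SimpleGraph V)) (k m : ℕ)
    (R : SimpleGraph V → Prop) (hmono : ∀ G G', G ≤ G' → R G → R G')
    (hR : ∀ B ∈ 𝓑, R B)
    (h : Exchange G₀ 𝓑) (hk : ∀ B ∈ 𝓑, B.edgeSet.ncard = k) (hm : ∀ H ∈ 𝓗, H.edgeSet.ncard = m)
    (hne : ∃ B ∈ 𝓑, ∃ H ∈ 𝓗, H ≤ G₀ ∧ Disjoint B.edgeSet H.edgeSet) (P : SimpleGraph V → Prop)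
    (h1 : ∀ G ≤ G₀, (∃ H ∈ 𝓗, H ≤ G ∧ R (G \ H)) → P G)
    (h2 : ∀ G ≤ G₀, P G → k + m ≤ G.edgeSet.ncard) : EvasiveOn G₀ P := by
  refine pack G₀ 𝓑 𝓗 k m h hk hm hne P (fun B hB H hH hHG hd => ?_) h2
  exact h1 _ (sup_le (h.le B hB) hHG) ⟨H, hH, le_sup_right, hmono _ _ (sup_sdiff_ge hd) (hR B hB)⟩

/-- The spanning trees of a connected graph with at least two vertices are an exchange family. -/
theorem tree_exchange [Finite V] [Nontrivial V] (G₀ : SimpleGraph V) (hc : G₀.Connected) :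
    Exchange G₀ {T | T ≤ G₀ ∧ T.IsTree} := by
  classical
  refine ⟨?_, fun T hT => hT.1, ?_, ?_⟩
  · obtain ⟨T, hT, hT'⟩ := hc.exists_isTree_le
    exact ⟨T, hT, hT'⟩
  · rintro T ⟨-, hT⟩ rfl
    obtain ⟨x, y, hxy⟩ := exists_pair_ne V
    obtain ⟨p⟩ := hT.connected x y
    cases p with
    | nil => exact hxy rfl
    | cons h _ => exact h
  · rintro T ⟨hTG, hT⟩ e he heT
    induction e with
    | _ u v =>
    have huv : u ≠ v := G₀.ne_of_adj he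
    obtain ⟨p, hp⟩ := hT.connected.exists_isPath v u
    have hle1 : T ≤ T ⊔ fromEdgeSet {s(u, v)} := le_sup_left
    have hadj : (T ⊔ fromEdgeSet {s(u, v)}).Adj u v := by
      rw [sup_adj, fromEdgeSet_adj]
      exact Or.inr ⟨rfl, huv⟩
    have hcyc : (Walk.cons hadj (p.mapLe hle1)).IsCycle := by
      rw [Walk.cons_isCycle_iff]
      refine ⟨hp.mapLe hle1, ?_⟩
      rw [Walk.edges_mapLe_eq_edges]
      exact fun h => heT (p.edges_subset_edgeSet h)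
    obtain ⟨w, hvw, hmem⟩ : ∃ w, T.Adj v w ∧ s(v, w) ∈ p.edges := by
      cases p with
      | nil => exact absurd rfl huv
      | cons h q => exact ⟨_, h, by rw [Walk.edges_cons]; exact List.mem_cons_self⟩
    have hnb : ¬ (T ⊔ fromEdgeSet {s(u, v)}).IsBridge s(v, w) := by
      intro hb
      refine (isBridge_iff_forall_cycle_notMem (edgeSet_subset_edgeSet.2 hle1 hvw)).mp hb _ hcyc ?_
      rw [Walk.edges_cons, Walk.edges_mapLe_eq_edges]
      exact List.mem_cons_of_mem _ hmem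
    have hc1 : (T ⊔ fromEdgeSet {s(u, v)}).Connected := hT.connected.mono hle1
    have hc2 := hc1.connected_delete_edge_of_not_isBridge hnb
    have hes : (T ⊔ fromEdgeSet {s(u, v)}).edgeSet = insert s(u, v) T.edgeSet := by
      rw [edgeSet_sup, edgeSet_fromEdgeSet, Set.union_comm]
      ext x
      rw [Set.mem_union, Set.mem_sdiff, Set.mem_insert_iff]
      constructor
      · rintro (⟨h1, -⟩ | h1)
        · exact Or.inl h1
        · exact Or.inr h1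
      · rintro (h1 | h1)
        · left
          refine ⟨h1, ?_⟩
          rw [h1]
          exact fun hd => huv (Sym2.mk_isDiag_iff.1 hd)
        · exact Or.inr h1
    have hvw' : s(v, w) ∈ T.edgeSet := hvw
    refine ⟨(T ⊔ fromEdgeSet {s(u, v)}).deleteEdges {s(v, w)}, ⟨?_, ?_⟩, ?_, ?_⟩
    · refine (deleteEdges_le _).trans (sup_le hTG ?_)
      rw [← edgeSet_subset_edgeSet, edgeSet_fromEdgeSet]
      rintro x ⟨hx, -⟩
      rw [Set.mem_singleton_iff] at hx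
      rw [hx]
      exact he
    · rw [isTree_iff_connected_and_card]
      refine ⟨hc2, ?_⟩
      have hcard := (isTree_iff_connected_and_card.1 hT).2
      rw [← hcard]
      have h1 : Nat.card T.edgeSet = T.edgeSet.ncard := rfl
      have h2 : ∀ S : SimpleGraph V, Nat.card S.edgeSet = S.edgeSet.ncard := fun S => rfl
      rw [h2, h2, edgeSet_deleteEdges, hes,
        Set.ncard_sdiff_singleton_of_mem (Set.mem_insert_of_mem _ hvw'),
        Set.ncard_insert_of_notMem heT (Set.toFinite _)]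
      omega
    · rw [edgeSet_deleteEdges, hes]
      exact Set.sdiff_subset
    · intro hle
      have := edgeSet_subset_edgeSet.2 hle hvw'
      rw [edgeSet_deleteEdges] at this
      exact this.2 rfl

theorem tree_ncard [Finite V] {T : SimpleGraph V} (h : T.IsTree) : T.edgeSet.ncard = Nat.card V - 1 := by
  have := (isTree_iff_connected_and_card.1 h).2
  have h2 : Nat.card T.edgeSet = T.edgeSet.ncard := rfl
  omega

/-- connectedness after the deletion of a member of `𝓗` -/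
theorem conn_pack [Finite V] [DecidableEq V] [Nontrivial V] (G₀ : SimpleGraph V) (𝓗 : Set (SimpleGraph V))
    (m : ℕ) (hm : ∀ H ∈ 𝓗, H.edgeSet.ncard = m) (hex : ∃ H ∈ 𝓗, H ≤ G₀ ∧ (G₀ \ H).Connected)
    (P : SimpleGraph V → Prop) (h1 : ∀ G ≤ G₀, (∃ H ∈ 𝓗, H ≤ G ∧ (G \ H).Connected) → P G)
    (h2 : ∀ G ≤ G₀, P G → Nat.card V - 1 + m ≤ G.edgeSet.ncard) : EvasiveOn G₀ P := by
  obtain ⟨H, hH, hHG, hc⟩ := hex
  refine pack_prop G₀ {T | T ≤ G₀ ∧ T.IsTree} 𝓗 (Nat.card V - 1) m (fun G => G.Connected)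
    (fun G G' h hG => hG.mono h) (fun B hB => hB.2.connected)
    (tree_exchange G₀ (hc.mono sdiff_le)) (fun B hB => tree_ncard hB.2) hm ?_ P h1 h2
  obtain ⟨T, hT, hT'⟩ := hc.exists_isTree_le
  refine ⟨T, ⟨hT.trans sdiff_le, hT'⟩, H, hH, hHG, ?_⟩
  rw [Set.disjoint_left]
  intro x hx hxH
  have := edgeSet_subset_edgeSet.2 hT hx
  rw [edgeSet_sdiff] at this
  exact this.2 hxH

/-- rank in the rigidity matroid after the deletion of a member of `𝓗` -/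
theorem rank_pack [Finite V] [DecidableEq V] (G₀ : SimpleGraph V) (d k : ℕ) (hd : 1 ≤ d) (hk : 1 ≤ k)
    (𝓗 : Set (SimpleGraph V))
    (m : ℕ) (hm : ∀ H ∈ 𝓗, H.edgeSet.ncard = m)
    (hex : ∃ H ∈ 𝓗, H ≤ G₀ ∧ ∃ p : V → Fin d → ℝ, k ≤ rank p (G₀ \ H))
    (P : SimpleGraph V → Prop)
    (h1 : ∀ G ≤ G₀, (∃ H ∈ 𝓗, H ≤ G ∧ ∃ p : V → Fin d → ℝ, k ≤ rank p (G \ H)) → P G)
    (h2 : ∀ G ≤ G₀, P G → k + m ≤ G.edgeSet.ncard) : EvasiveOn G₀ P := by
  obtain ⟨H, hH, hHG, p, hp⟩ := hex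
  refine pack_prop G₀ (rigidFamily G₀ d k) 𝓗 k m (fun G => ∃ p : V → Fin d → ℝ, k ≤ rank p G)
    (fun G G' h hG => ?_) (fun B hB => ?_)
    (rigid_exchange G₀ d k hd hk ⟨p, hp.trans (rank_mono p sdiff_le)⟩) (fun B hB => hB.2.2) hm ?_ P h1 h2
  · obtain ⟨q, hq⟩ := hG
    exact ⟨q, hq.trans (rank_mono q h)⟩
  · obtain ⟨-, ⟨q, hq⟩, hBk⟩ := hB
    exact ⟨q, by rw [rank_eq_of_indep hq, hBk]⟩
  · obtain ⟨B, hB⟩ := (rigid_exchange (G₀ \ H) d k hd hk ⟨p, hp⟩).nonempty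
    refine ⟨B, ⟨hB.1.trans sdiff_le, hB.2⟩, H, hH, hHG, ?_⟩
    rw [Set.disjoint_left]
    intro x hx hxH
    have := edgeSet_subset_edgeSet.2 hB.1 hx
    rw [edgeSet_sdiff] at this
    exact this.2 hxH

/-- rank in a matroid after the deletion of a member of `𝓗` -/
theorem matroid_pack [Finite V] [DecidableEq V] (G₀ : SimpleGraph V) (M : Matroid (Sym2 V))
    (hE : M.E = G₀.edgeSet) (hl : ∀ e ∈ G₀.edgeSet, M.Indep {e}) (k : ℕ) (hk : 1 ≤ k)
    (𝓗 : Set (SimpleGraph V)) (m : ℕ) (hm : ∀ H ∈ 𝓗, H.edgeSet.ncard = m)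
    (hex : ∃ H ∈ 𝓗, H ≤ G₀ ∧ ∃ I ⊆ (G₀ \ H).edgeSet, M.Indep I ∧ I.ncard = k)
    (P : SimpleGraph V → Prop)
    (h1 : ∀ G ≤ G₀, (∃ H ∈ 𝓗, H ≤ G ∧ ∃ I ⊆ (G \ H).edgeSet, M.Indep I ∧ I.ncard = k) → P G)
    (h2 : ∀ G ≤ G₀, P G → k + m ≤ G.edgeSet.ncard) : EvasiveOn G₀ P := by
  obtain ⟨H, hH, hHG, I, hI, hI1, hI2⟩ := hex
  refine pack_prop G₀ (indepFamily M k) 𝓗 k m (fun G => ∃ I ⊆ G.edgeSet, M.Indep I ∧ I.ncard = k)
    (fun G G' h hG => ?_) (fun B hB => ?_)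
    (matroid_exchange G₀ M hE hl k hk ⟨I, hI1, hI2⟩) (fun B hB => hB.2) hm ?_ P h1 h2
  · obtain ⟨J, hJ, hJ'⟩ := hG
    exact ⟨J, hJ.trans (edgeSet_subset_edgeSet.2 h), hJ'⟩
  · exact ⟨B.edgeSet, Set.Subset.refl _, hB.1, hB.2⟩
  · have hIG : I ⊆ G₀.edgeSet := hI.trans (edgeSet_subset_edgeSet.2 sdiff_le)
    refine ⟨fromEdgeSet I, ?_, H, hH, hHG, ?_⟩
    · show M.Indep (fromEdgeSet I).edgeSet ∧ (fromEdgeSet I).edgeSet.ncard = k
      rw [edgeSet_fromEdgeSet_of hIG]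
      exact ⟨hI1, hI2⟩
    · rw [edgeSet_fromEdgeSet_of hIG, Set.disjoint_left]
      intro x hx hxH
      have := hI hx
      rw [edgeSet_sdiff] at this
      exact this.2 hxH

end Pool.Agent.L0h36.XF
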