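import Pool.Agent.L0h36.XF.Core

set_option autoImplicit false

/-! # Exchange families and evasiveness: generic rigidity in `ℝ^d` -/

namespace Pool.Agent.L0h36.XF

open SimpleGraph

variable {V : Type}

/-- The row of the rigidity matrix of the placement `p : V → ℝ^d` which belongs to the pair `e = uv`:
it is `p u - p v` at `u`, `p v - p u` at `v`, and zero at the other vertices. -/
noncomputable def row [DecidableEq V] {d : ℕ} (p : V → Fin d → ℝ) : Sym2 V → (V → Fin d → ℝ) :=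
  Sym2.lift ⟨fun u v => Pi.single u (p u - p v) + Pi.single v (p v - p u), fun _ _ =>
    add_comm _ _⟩

/-- The rank of the rigidity matrix of the framework `(G, p)`. -/
noncomputable def rank [DecidableEq V] {d : ℕ} (p : V → Fin d → ℝ) (G : SimpleGraph V) : ℕ :=
  Module.finrank ℝ (Submodule.span ℝ (row p '' G.edgeSet))

/-- `G` is independent (free of stresses) in `ℝ^d`: for some placement the rows of its rigidity
matrix are linearly independent. -/
def IndependentIn [DecidableEq V] (d : ℕ) (G : SimpleGraph V) : Prop :=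
  ∃ p : V → Fin d → ℝ, LinearIndepOn ℝ (row p) G.edgeSet

theorem row_mk [DecidableEq V] {d : ℕ} (p : V → Fin d → ℝ) (u v : V) :
    row p s(u, v) = Pi.single u (p u - p v) + Pi.single v (p v - p u) := rfl

theorem row_add_smul [DecidableEq V] {d : ℕ} (p δ : V → Fin d → ℝ) (t : ℝ) (e : Sym2 V) :
    row (p + t • δ) e = row p e + t • row δ e := by
  induction e using Sym2.ind with
  | _ u v =>
    rw [row_mk, row_mk, row_mk]
    funext w i
    simp only [Pi.add_apply, Pi.smul_apply, Pi.single_apply, smul_eq_mul]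
    split_ifs <;> simp only [Pi.sub_apply, Pi.add_apply, Pi.smul_apply, smul_eq_mul, Pi.zero_apply] <;> ring

theorem row_ne_zero [DecidableEq V] {d : ℕ} (p : V → Fin d → ℝ) {u v : V} (huv : u ≠ v) (h : p u ≠ p v) :
    row p s(u, v) ≠ 0 := by
  intro h0
  rw [row_mk] at h0
  have h1 := congrFun h0 u
  rw [Pi.add_apply, Pi.single_eq_same, Pi.single_eq_of_ne huv, add_zero, Pi.zero_apply, sub_eq_zero] at h1
  exact h h1

/-- Perturbation: independence is kept and two given vertices are separated. -/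
theorem perturb [Finite V] [DecidableEq V] {d : ℕ} (hd : 1 ≤ d) (p : V → Fin d → ℝ) (S : Set (Sym2 V))
    (h : LinearIndepOn ℝ (row p) S) {u v : V} (huv : u ≠ v) :
    ∃ q : V → Fin d → ℝ, LinearIndepOn ℝ (row q) S ∧ q u ≠ q v := by
  classical
  by_cases hp : p u = p v
  · have : Fintype V := Fintype.ofFinite V
    obtain ⟨δ, hδ⟩ : ∃ δ : V → Fin d → ℝ, δ = Pi.single u (fun _ => 1) := ⟨_, rfl⟩
    have hcont : Continuous (fun t : ℝ => fun b : S => row (p + t • δ) (b : Sym2 V)) := by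
      apply continuous_pi
      intro b
      simp only [row_add_smul]
      fun_prop
    have hopen : IsOpen {f : S → (V → Fin d → ℝ) | LinearIndependent ℝ f} :=
      isOpen_setOfPred_linearIndependent
    have h1 : IsOpen ((fun t : ℝ => fun b : S => row (p + t • δ) (b : Sym2 V)) ⁻¹'
        {f : S → (V → Fin d → ℝ) | LinearIndependent ℝ f}) := hopen.preimage hcont
    have h2 : (0 : ℝ) ∈ ((fun t : ℝ => fun b : S => row (p + t • δ) (b : Sym2 V)) ⁻¹'
        {f : S → (V → Fin d → ℝ) | LinearIndependent ℝ f}) := by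
      change LinearIndependent ℝ (fun b : S => row (p + (0 : ℝ) • δ) (b : Sym2 V))
      rw [zero_smul, add_zero]
      exact h
    obtain ⟨ε, hε, h3⟩ := Metric.isOpen_iff.1 h1 0 h2
    refine ⟨p + (ε / 2) • δ, ?_, ?_⟩
    · exact h3 (by rw [Metric.mem_ball, Real.dist_eq, sub_zero, abs_of_pos (by positivity)]; linarith)
    · intro h4
      have h5 := congrFun h4 ⟨0, hd⟩
      rw [hδ] at h5
      simp only [Pi.add_apply, Pi.smul_apply, smul_eq_mul] at h5
      rw [Pi.single_eq_same, Pi.single_eq_of_ne (Ne.symm huv), hp, Pi.zero_apply] at h5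
      linarith
  · exact ⟨p, h, hp⟩

theorem ncard_eq_finrank {W : Type} [AddCommGroup W] [Module ℝ W] {f : Sym2 V → W} {S : Set (Sym2 V)} [Finite S]
    (h : LinearIndepOn ℝ f S) : Module.finrank ℝ (Submodule.span ℝ (f '' S)) = S.ncard := by
  have : Fintype S := Fintype.ofFinite S
  have h1 := finrank_span_eq_card (R := ℝ) (b := fun x : S => f x) h
  rw [← Set.image_eq_range] at h1
  rw [h1, ← Nat.card_eq_fintype_card, Nat.card_coe_set_eq]

theorem finrank_le_ncard {W : Type} [AddCommGroup W] [Module ℝ W] (f : Sym2 V → W) (S : Set (Sym2 V)) [Finite V] :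
    Module.finrank ℝ (Submodule.span ℝ (f '' S)) ≤ S.ncard := by
  classical
  have hf : (f '' S).Finite := (Set.toFinite S).image f
  have : Fintype (f '' S) := hf.fintype
  have h1 := finrank_span_le_card (R := ℝ) (f '' S)
  refine h1.trans ?_
  rw [← Set.ncard_eq_toFinset_card' (f '' S)]
  exact Set.ncard_image_le (Set.toFinite S)

/-- The exchange for vectors. -/
theorem vec_exchange [Finite V] {W : Type} [AddCommGroup W] [Module ℝ W] [FiniteDimensional ℝ W]
    {f : Sym2 V → W} {B : Set (Sym2 V)} (hB : LinearIndepOn ℝ f B) {e : Sym2 V} (he : f e ≠ 0) (heB : e ∉ B)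
    (hne : B.Nonempty) : ∃ J ⊆ insert e B, LinearIndepOn ℝ f J ∧ J.ncard = B.ncard ∧ ¬ B ⊆ J := by
  classical
  have hs : LinearIndepOn ℝ f {e} := by
    rw [linearIndepOn_singleton_iff]
    exact he
  have hst : ({e} : Set (Sym2 V)) ⊆ insert e B := Set.singleton_subset_iff.2 (Set.mem_insert e B)
  obtain ⟨J, hJ⟩ : ∃ J, J = hs.extend hst := ⟨_, rfl⟩
  have h1 : {e} ⊆ J := hJ ▸ hs.subset_extend hst
  have h2 : J ⊆ insert e B := hJ ▸ hs.extend_subset hst
  have h3 : LinearIndepOn ℝ f J := hJ ▸ hs.linearIndepOn_extend hst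
  have h4 : f '' (insert e B) ⊆ Submodule.span ℝ (f '' J) := by
    rw [hJ]
    exact hs.image_subset_span_image_extend hst
  have h5 : B.ncard ≤ J.ncard := by
    rw [← ncard_eq_finrank hB, ← ncard_eq_finrank h3]
    apply Submodule.finrank_mono
    rw [Submodule.span_le]
    exact (Set.image_mono (Set.subset_insert e B)).trans h4
  rw [Set.singleton_subset_iff] at h1
  by_cases hc : B ⊆ J
  · have hJe : J = insert e B := Set.Subset.antisymm h2 (Set.insert_subset h1 hc)
    obtain ⟨b, hb⟩ := hne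
    refine ⟨J \ {b}, Set.sdiff_subset.trans h2, h3.mono Set.sdiff_subset, ?_, fun h => (h hb).2 rfl⟩
    rw [Set.ncard_sdiff_singleton_of_mem (hc hb), hJe, Set.ncard_insert_of_notMem heB (Set.toFinite _)]
    omega
  · refine ⟨J, h2, h3, ?_, hc⟩
    have h6 : J.ncard < (insert e B).ncard := by
      apply Set.ncard_lt_ncard _ (Set.toFinite _)
      exact ⟨h2, fun h7 => hc fun x hx => h7 (Set.mem_insert_of_mem e hx)⟩
    rw [Set.ncard_insert_of_notMem heB (Set.toFinite _)] at h6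
    omega

/-- The subgraphs of `G₀` with exactly `k` edges which are independent in `ℝ^d`. -/
def rigidFamily [DecidableEq V] (G₀ : SimpleGraph V) (d k : ℕ) : Set (SimpleGraph V) :=
  {B | B ≤ G₀ ∧ IndependentIn d B ∧ B.edgeSet.ncard = k}

theorem edgeSet_fromEdgeSet_of {S : Set (Sym2 V)} {G₀ : SimpleGraph V} (hS : S ⊆ G₀.edgeSet) :
    (fromEdgeSet S).edgeSet = S := by
  rw [edgeSet_fromEdgeSet]
  ext x
  rw [Set.mem_sdiff]
  exact ⟨fun h => h.1, fun h => ⟨h, G₀.not_isDiag_of_mem_edgeSet (hS h)⟩⟩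

theorem fromEdgeSet_le {S : Set (Sym2 V)} {G₀ : SimpleGraph V} (hS : S ⊆ G₀.edgeSet) :
    fromEdgeSet S ≤ G₀ := by
  rw [← edgeSet_subset_edgeSet, edgeSet_fromEdgeSet_of hS]
  exact hS

theorem rigid_exchange [Finite V] [DecidableEq V] (G₀ : SimpleGraph V) (d k : ℕ) (hd : 1 ≤ d) (hk : 1 ≤ k)
    (hr : ∃ q : V → Fin d → ℝ, k ≤ rank q G₀) : Exchange G₀ (rigidFamily G₀ d k) := by
  classical
  have : Fintype V := Fintype.ofFinite V
  refine ⟨?_, fun B hB => hB.1, ?_, ?_⟩
  · obtain ⟨q, hq⟩ := hr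
    have hs : LinearIndepOn ℝ (row q) ∅ := linearIndepOn_empty ℝ _
    obtain ⟨J, hJ⟩ : ∃ J, J = hs.extend (Set.empty_subset G₀.edgeSet) := ⟨_, rfl⟩
    have h2 : J ⊆ G₀.edgeSet := hJ ▸ hs.extend_subset _
    have h3 : LinearIndepOn ℝ (row q) J := hJ ▸ hs.linearIndepOn_extend _
    have h4 : row q '' G₀.edgeSet ⊆ Submodule.span ℝ (row q '' J) := by
      rw [hJ]
      exact hs.image_subset_span_image_extend _
    have h5 : k ≤ J.ncard := by
      refine hq.trans ?_
      rw [← ncard_eq_finrank h3]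
      apply Submodule.finrank_mono
      rw [Submodule.span_le]
      exact h4
    obtain ⟨T, hT, hTk⟩ := Set.exists_subset_card_eq h5
    have hTd : T ⊆ G₀.edgeSet := hT.trans h2
    refine ⟨fromEdgeSet T, fromEdgeSet_le hTd, ⟨q, ?_⟩, ?_⟩
    · rw [edgeSet_fromEdgeSet_of hTd]
      exact h3.mono hT
    · rw [edgeSet_fromEdgeSet_of hTd]
      exact hTk
  · rintro B ⟨-, -, hB⟩ rfl
    rw [edgeSet_bot, Set.ncard_empty] at hB
    omega
  · rintro B ⟨hBG, ⟨p, hp⟩, hBk⟩ e he heB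
    induction e using Sym2.ind with
    | _ u v =>
      have huv : u ≠ v := (show G₀.Adj u v from he).ne
      obtain ⟨q, hq, hquv⟩ := perturb hd p B.edgeSet hp huv
      have hne : B.edgeSet.Nonempty := by
        rw [← Set.ncard_pos (Set.toFinite _)]
        omega
      obtain ⟨J, h1, h2, h3, h4⟩ := vec_exchange hq (row_ne_zero q huv hquv) heB hne
      have hJd : J ⊆ G₀.edgeSet := h1.trans (Set.insert_subset he (edgeSet_subset_edgeSet.2 hBG))
      refine ⟨fromEdgeSet J, ⟨fromEdgeSet_le hJd, ⟨q, ?_⟩, ?_⟩, ?_, ?_⟩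
      · rw [edgeSet_fromEdgeSet_of hJd]; exact h2
      · rw [edgeSet_fromEdgeSet_of hJd, h3]; exact hBk
      · rw [edgeSet_fromEdgeSet_of hJd]; exact h1
      · intro hle
        rw [← edgeSet_subset_edgeSet, edgeSet_fromEdgeSet_of hJd] at hle
        exact h4 hle

theorem rank_le [Finite V] [DecidableEq V] {d : ℕ} (p : V → Fin d → ℝ) (G : SimpleGraph V) :
    rank p G ≤ G.edgeSet.ncard := finrank_le_ncard _ _

theorem exists_max [Finite V] [DecidableEq V] (d : ℕ) (G₀ : SimpleGraph V) :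
    ∃ q₀ : V → Fin d → ℝ, ∀ q : V → Fin d → ℝ, rank q G₀ ≤ rank q₀ G₀ := by
  classical
  have hb : ∀ q : V → Fin d → ℝ, rank q G₀ ≤ G₀.edgeSet.ncard := fun q => rank_le q _
  obtain ⟨q₀, hq₀⟩ := Nat.sSup_mem (s := Set.range fun q : V → Fin d → ℝ => rank q G₀)
    ⟨_, ⟨fun _ _ => 0, rfl⟩⟩ ⟨_, by rintro _ ⟨q, rfl⟩; exact hb q⟩
  refine ⟨q₀, fun q => ?_⟩
  have h1 := le_csSup (s := Set.range fun q : V → Fin d → ℝ => rank q G₀)
    ⟨G₀.edgeSet.ncard, by rintro _ ⟨q, rfl⟩; exact hb q⟩ ⟨q, rfl⟩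
  rw [← hq₀] at h1
  exact h1

theorem rank_pos [Finite V] [DecidableEq V] {d : ℕ} (hd : 1 ≤ d) (G₀ : SimpleGraph V) (hG : G₀ ≠ ⊥) :
    ∃ q : V → Fin d → ℝ, 1 ≤ rank q G₀ := by
  classical
  have : Fintype V := Fintype.ofFinite V
  obtain ⟨u, v, huv⟩ := ne_bot_iff_exists_adj.1 hG
  obtain ⟨q, hq, hne⟩ := perturb hd (fun _ _ => 0) (∅ : Set (Sym2 V)) (linearIndepOn_empty ℝ _) huv.ne
  refine ⟨q, ?_⟩
  have h1 := row_ne_zero q huv.ne hne
  have h2 : row q s(u, v) ∈ Submodule.span ℝ (row q '' G₀.edgeSet) :=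
    Submodule.subset_span ⟨s(u, v), huv, rfl⟩
  unfold rank
  rw [Nat.one_le_iff_ne_zero]
  intro h0
  have h3 : Submodule.span ℝ (row q '' G₀.edgeSet) = ⊥ := Submodule.finrank_eq_zero.1 h0
  rw [h3, Submodule.mem_bot] at h2
  exact h1 h2

/-- All properties which separate the independent subgraphs with `k` edges from those with `k - 1`
edges are evasive. -/
theorem rigid_main [Finite V] [DecidableEq V] (G₀ : SimpleGraph V) (d k : ℕ) (hd : 1 ≤ d) (hk : 1 ≤ k)
    (hr : ∃ q : V → Fin d → ℝ, k ≤ rank q G₀) (P : SimpleGraph V → Prop)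
    (h1 : ∀ B ≤ G₀, IndependentIn d B → B.edgeSet.ncard = k → P B)
    (h2 : ∀ B ≤ G₀, IndependentIn d B → B.edgeSet.ncard + 1 = k → ¬ P B) : EvasiveOn G₀ P := by
  refine main G₀ (rigidFamily G₀ d k) (rigid_exchange G₀ d k hd hk hr) P ?_
  rintro B ⟨hBG, hB, hBk⟩
  refine ⟨h1 B hBG hB hBk, fun e he => h2 _ ((deleteEdges_le _).trans hBG) ?_ ?_⟩
  · obtain ⟨p, hp⟩ := hB
    refine ⟨p, hp.mono ?_⟩
    rw [edgeSet_deleteEdges]
    exact Set.sdiff_subset
  · rw [edgeSet_deleteEdges, Set.ncard_sdiff_singleton_of_mem he, hBk]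
    omega

theorem rank_eq_of_indep [Finite V] [DecidableEq V] {d : ℕ} {p : V → Fin d → ℝ} {B : SimpleGraph V}
    (h : LinearIndepOn ℝ (row p) B.edgeSet) : rank p B = B.edgeSet.ncard := ncard_eq_finrank h

theorem rankGe_evasive [Finite V] [DecidableEq V] (G₀ : SimpleGraph V) (d k : ℕ) (hd : 1 ≤ d) (hk : 1 ≤ k)
    (hr : ∃ q : V → Fin d → ℝ, k ≤ rank q G₀) :
    EvasiveOn G₀ (fun G => ∃ p : V → Fin d → ℝ, k ≤ rank p G) := by
  refine rigid_main G₀ d k hd hk hr _ ?_ ?_
  · rintro B _ ⟨p, hp⟩ hBk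
    exact ⟨p, by rw [rank_eq_of_indep hp, hBk]⟩
  · rintro B _ _ hBk ⟨p, hp⟩
    have := rank_le p B
    omega

/-- `G` is (generically) rigid in `ℝ^d`: for some placement the rank of its rigidity matrix is the
largest rank which occurs for the complete graph and any placement. -/
def Rigid [DecidableEq V] (d : ℕ) (G : SimpleGraph V) : Prop :=
  ∃ p : V → Fin d → ℝ, ∀ q : V → Fin d → ℝ, rank q (⊤ : SimpleGraph V) ≤ rank p G

theorem rank_mono [Finite V] [DecidableEq V] {d : ℕ} (p : V → Fin d → ℝ) {G H : SimpleGraph V} (h : G ≤ H) :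
    rank p G ≤ rank p H := by
  have : Fintype V := Fintype.ofFinite V
  exact Submodule.finrank_mono (Submodule.span_mono (Set.image_mono (edgeSet_subset_edgeSet.2 h)))

/-- Rigidity is evasive on every rigid host graph. -/
theorem rigid_evasive [Finite V] [DecidableEq V] (G₀ : SimpleGraph V) (d : ℕ) (hd : 1 ≤ d) (hG : G₀ ≠ ⊥)
    (hR : Rigid d G₀) : EvasiveOn G₀ (Rigid d) := by
  obtain ⟨q₀, hq₀⟩ := exists_max d G₀
  obtain ⟨q₁, hq₁⟩ := rank_pos hd G₀ hG
  obtain ⟨p₀, hp₀⟩ := hR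
  refine rigid_main G₀ d (rank q₀ G₀) hd (hq₁.trans (hq₀ q₁)) ⟨q₀, le_rfl⟩ _ ?_ ?_
  · rintro B _ ⟨p, hp⟩ hBk
    refine ⟨p, fun q => ?_⟩
    rw [rank_eq_of_indep hp, hBk]
    exact (hp₀ q).trans (hq₀ p₀)
  · rintro B _ _ hBk ⟨p, hp⟩
    have h1 := (rank_mono q₀ (le_top : G₀ ≤ ⊤)).trans (hp q₀)
    have h2 := rank_le p B
    omega

end Pool.Agent.L0h36.XF
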